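import Pool.Agent.W845.PM.Base

/-! Project PM: walks between two fixed vertices of a random graph. -/

set_option autoImplicit false
open scoped Classical
open Filter Topology MeasureTheory ProbabilityTheory
open scoped ENNReal NNReal BigOperators

namespace Pool.Agent.W591.PM

open Pool.Agent.W845.PM

noncomputable section

theorem nearrec : S_NEARREC := by
  intro V j G a b hab h
  obtain ⟨w, hw⟩ := h
  have hp := w.bypass_isPath
  have hl : w.bypass.length ≤ j + 1 := w.length_bypass_le_length.trans hw
  revert hp hl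
  generalize w.bypass = q
  intro hp hl
  cases q with
  | nil => exact absurd rfl hab
  | cons h q =>
    rename_i c
    rw [SimpleGraph.Walk.cons_isPath_iff] at hp
    rw [SimpleGraph.Walk.length_cons] at hl
    refine ⟨c, h, q.transfer (del G a) ?_, ?_⟩
    · intro e he
      induction e using Sym2.ind with
      | _ x y =>
        have hx := q.fst_mem_support_of_mem_edges he
        have hy := q.snd_mem_support_of_mem_edges he
        have hadj : G.Adj x y := q.adj_of_mem_edges he
        exact ⟨hadj, fun e => hp.2 (e ▸ hx), fun e => hp.2 (e ▸ hy)⟩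
    · rw [SimpleGraph.Walk.length_transfer]
      omega

/-- walks without the new vertex -/
theorem stay {n : ℕ} (K : SimpleGraph (Fin n)) {a b : Fin (n + 1)}
    (q : (ext K ∅).Walk a b) : ∀ x : Fin n, a = Fin.castSucc x →
      ∃ y, b = Fin.castSucc y ∧ ∃ q' : K.Walk x y, q'.length = q.length := by
  induction q with
  | nil =>
    intro x hx
    exact ⟨x, hx, SimpleGraph.Walk.nil, rfl⟩
  | cons h q ih =>
    rename_i u v w
    intro x hx
    have hh : ∃ z, v = Fin.castSucc z ∧ K.Adj x z := by
      rcases h with ⟨x', z, hx', hz, hxz⟩ | ⟨_, y, hy, _⟩ | ⟨_, y, hy, _⟩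
      · have e : x' = x := Fin.castSucc_injective n (hx'.symm.trans hx)
        subst e
        exact ⟨z, hz, hxz⟩
      · simp at hy
      · simp at hy
    obtain ⟨z, hz, hxz⟩ := hh
    obtain ⟨y, hy, q', hq'⟩ := ih z hz
    exact ⟨y, hy, SimpleGraph.Walk.cons hxz q', by
      rw [SimpleGraph.Walk.length_cons, SimpleGraph.Walk.length_cons, hq']⟩

theorem near_ext {n : ℕ} (j : ℕ) (K : SimpleGraph (Fin n)) (x y : Fin n)
    (h : near j (ext K ∅) (Fin.castSucc x) (Fin.castSucc y)) : near j K x y := by
  obtain ⟨q, hq⟩ := h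
  obtain ⟨z, hz, q', hq'⟩ := stay K q x rfl
  have e : y = z := Fin.castSucc_injective n hz
  subst e
  exact ⟨q', by omega⟩

theorem near_last {n : ℕ} (j : ℕ) (K : SimpleGraph (Fin n)) (N : Finset (Fin n)) (y : Fin n)
    (h : near (j + 1) (ext K N) (Fin.last n) (Fin.castSucc y)) :
    ∃ x ∈ N, near j K x y := by
  obtain ⟨w, hw, hn⟩ := nearrec _ j _ _ _ (Fin.castSucc_lt_last y).ne' h
  rw [del_ext_last] at hn
  rcases hw with ⟨x, z, hx, hz, hxz⟩ | ⟨_, x, hx, hwx⟩ | ⟨_, x, hx, hl⟩
  · exact absurd hx.symm (Fin.castSucc_lt_last x).ne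
  · subst hwx
    exact ⟨x, hx, near_ext j K x y hn⟩
  · exact absurd hl.symm (Fin.castSucc_lt_last x).ne

/-- probability that a fixed vertex belongs to the random set -/
theorem sum_ws_mem (n : ℕ) (p : ℝ) (w : Fin n) :
    ∑ N : Finset (Fin n), ws n p N * (if w ∈ N then (1 : ℝ) else 0) = p := by
  have h := Finset.prod_add (fun _ : Fin n => p) (fun i : Fin n => if i = w then (0 : ℝ) else 1 - p)
    Finset.univ
  rw [Finset.powerset_univ] at h
  have h1 : ∏ i : Fin n, (p + (if i = w then (0 : ℝ) else 1 - p)) = p := by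
    rw [← Finset.mul_prod_erase Finset.univ _ (Finset.mem_univ w)]
    rw [Finset.prod_eq_one]
    · simp
    · intro i hi
      rw [if_neg (Finset.ne_of_mem_erase hi)]
      ring
  rw [h1] at h
  refine Eq.trans ?_ h.symm
  refine Finset.sum_congr rfl fun N _ => ?_
  rw [Finset.prod_const]
  unfold ws
  by_cases hw : w ∈ N
  · rw [if_pos hw, mul_one]
    congr 1
    rw [Finset.prod_congr rfl (g := fun _ => 1 - p), Finset.prod_const,
      Finset.card_sdiff_of_subset (Finset.subset_univ N), Finset.card_univ, Fintype.card_fin]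
    intro i hi
    rw [if_neg]
    rintro rfl
    exact (Finset.mem_sdiff.1 hi).2 hw
  · rw [if_neg hw, mul_zero, Finset.prod_eq_zero (i := w), mul_zero]
    · exact Finset.mem_sdiff.2 ⟨Finset.mem_univ _, hw⟩
    · rw [if_pos rfl]

theorem near_comap {n : ℕ} (j : ℕ) (G : SimpleGraph (Fin n)) (σ : Equiv.Perm (Fin n))
    (x y : Fin n) : near j (G.comap σ) x y ↔ near j G (σ x) (σ y) := by
  constructor
  · rintro ⟨q, hq⟩
    refine ⟨q.map (G' := G) ⟨σ, fun h => h⟩, ?_⟩
    rw [SimpleGraph.Walk.length_map]
    exact hq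
  · rintro ⟨q, hq⟩
    have h := q.map (G' := G.comap σ) ⟨σ.symm, fun {a b} h => by
      rw [SimpleGraph.comap_adj, Equiv.apply_symm_apply, Equiv.apply_symm_apply]
      exact h⟩
    have : ∃ q' : (G.comap σ).Walk (σ.symm (σ x)) (σ.symm (σ y)), q'.length ≤ j := by
      refine ⟨q.map (G' := G.comap σ) ⟨σ.symm, fun {a b} h => by
        rw [SimpleGraph.comap_adj, Equiv.apply_symm_apply, Equiv.apply_symm_apply]
        exact h⟩, ?_⟩
      rw [SimpleGraph.Walk.length_map]
      exact hq
    rw [Equiv.symm_apply_apply, Equiv.symm_apply_apply] at this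
    exact this

theorem nearp : S_EXT → S_ONE → S_COM → S_NEARP := by
  intro hE hO hC j
  induction j with
  | zero =>
    intro n p a b h0 h1 hab
    have : ∀ G : SimpleGraph (Fin n), (if near 0 G a b then (1 : ℝ) else 0) = 0 := by
      intro G
      rw [if_neg]
      rintro ⟨w, hw⟩
      exact hab (SimpleGraph.Walk.eq_of_length_eq_zero (p := w) (by omega))
    rw [EG_congr this, EG_const hO]
    simp
  | succ j ih =>
    intro n p a b h0 h1 hab
    obtain ⟨m, rfl⟩ : ∃ m, n = m + 1 := ⟨n - 1, by have := a.2; omega⟩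
    -- transport to the last vertex
    set σ : Equiv.Perm (Fin (m + 1)) := Equiv.swap (Fin.last m) a with hσ
    have hσa : σ (Fin.last m) = a := Equiv.swap_apply_left _ _
    have hb : σ b ≠ Fin.last m := by
      intro e
      apply hab
      rw [← hσa, ← e, hσ, Equiv.swap_apply_self]
    obtain ⟨y, hy⟩ := Fin.exists_castSucc_eq.2 hb
    have hyb : σ (Fin.castSucc y) = b := by
      rw [hy, hσ, Equiv.swap_apply_self]
    have e1 : EG (m + 1) p (fun G => if near (j + 1) G a b then (1 : ℝ) else 0) =
        EG (m + 1) p (fun G => if near (j + 1) G (Fin.last m) (Fin.castSucc y)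
          then (1 : ℝ) else 0) := by
      rw [← hC (m + 1) (m + 1) σ.toEmbedding p (fun G => if near (j + 1) G (Fin.last m)
        (Fin.castSucc y) then (1 : ℝ) else 0)]
      refine EG_congr fun G => ?_
      have := near_comap (j + 1) G σ (Fin.last m) (Fin.castSucc y)
      rw [hσa, hyb] at this
      change _ = if near (j + 1) (G.comap σ) (Fin.last m) (Fin.castSucc y) then (1 : ℝ) else 0
      simp only [this]
    rw [e1, hE]
    -- the bound
    set q : Fin m → ℝ := fun w => EG m p (fun K => if near j K w y then (1 : ℝ) else 0) with hq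
    have hmp : 0 ≤ (m : ℝ) * p := by positivity
    have hS0 : 0 ≤ ∑ i ∈ Finset.range j, ((m : ℝ) * p) ^ i :=
      Finset.sum_nonneg fun i _ => pow_nonneg hmp i
    have s1 : ∀ N : Finset (Fin m), EG m p (fun K => if near (j + 1) (ext K N) (Fin.last m)
        (Fin.castSucc y) then (1 : ℝ) else 0) ≤ ∑ w : Fin m, (if w ∈ N then (1 : ℝ) else 0) * q w := by
      intro N
      have : ∑ w : Fin m, (if w ∈ N then (1 : ℝ) else 0) * q w =
          EG m p (fun K => ∑ w : Fin m, (if w ∈ N then (1 : ℝ) else 0) *
            (if near j K w y then (1 : ℝ) else 0)) := by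
        rw [EG_sum]
        refine Finset.sum_congr rfl fun w _ => ?_
        rw [EG_mul_left]
      rw [this]
      refine EG_mono h0 h1 fun K => ?_
      have hnn : ∀ w ∈ (Finset.univ : Finset (Fin m)), 0 ≤ (if w ∈ N then (1 : ℝ) else 0) *
            (if near j K w y then (1 : ℝ) else 0) := by
        intro w _
        positivity
      by_cases hn : near (j + 1) (ext K N) (Fin.last m) (Fin.castSucc y)
      · rw [if_pos hn]
        obtain ⟨x, hx, hxn⟩ := near_last j K N y hn
        have h2 := Finset.single_le_sum hnn (Finset.mem_univ x)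
        rw [if_pos hx, if_pos hxn, one_mul] at h2
        exact h2
      · rw [if_neg hn]
        exact Finset.sum_nonneg hnn
    have s2 : ∑ N : Finset (Fin m), ws m p N * EG m p (fun K => if near (j + 1) (ext K N)
        (Fin.last m) (Fin.castSucc y) then (1 : ℝ) else 0) ≤ ∑ w : Fin m, p * q w := by
      calc _ ≤ ∑ N : Finset (Fin m), ws m p N * ∑ w : Fin m, (if w ∈ N then (1 : ℝ) else 0) * q w :=
            Finset.sum_le_sum fun N _ => mul_le_mul_of_nonneg_left (s1 N) (ws_nonneg h0 h1 N)
        _ = ∑ w : Fin m, p * q w := by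
            simp only [Finset.mul_sum]
            rw [Finset.sum_comm]
            refine Finset.sum_congr rfl fun w _ => ?_
            simp only [← mul_assoc]
            rw [← Finset.sum_mul, sum_ws_mem]
    refine s2.trans ?_
    rw [← Finset.mul_sum]
    refine mul_le_mul_of_nonneg_left ?_ h0
    have s3 : ∀ w ∈ (Finset.univ : Finset (Fin m)),
        q w ≤ (if w = y then 1 else 0) + p * ∑ i ∈ Finset.range j, ((m : ℝ) * p) ^ i := by
      intro w _
      by_cases hw : w = y
      · rw [if_pos hw]
        have h2 : q w ≤ 1 := by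
          have : EG m p (fun K => if near j K w y then (1 : ℝ) else 0) ≤ EG m p (fun _ => 1) := by
            refine EG_mono h0 h1 fun K => ?_
            split_ifs <;> norm_num
          rw [(hO m p).1] at this
          exact this
        have : 0 ≤ p * ∑ i ∈ Finset.range j, ((m : ℝ) * p) ^ i := mul_nonneg h0 hS0
        linarith
      · rw [if_neg hw, zero_add]
        exact ih m p w y h0 h1 hw
    refine (Finset.sum_le_sum s3).trans ?_
    rw [Finset.sum_add_distrib, Finset.sum_ite_eq', if_pos (Finset.mem_univ _), Finset.sum_const,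
      Finset.card_univ, Fintype.card_fin, nsmul_eq_mul]
    have s4 : 1 + (m : ℝ) * (p * ∑ i ∈ Finset.range j, ((m : ℝ) * p) ^ i) =
        ∑ i ∈ Finset.range (j + 1), ((m : ℝ) * p) ^ i := by
      rw [Finset.sum_range_succ', pow_zero, Finset.mul_sum, Finset.mul_sum, add_comm]
      congr 1
      refine Finset.sum_congr rfl fun i _ => ?_
      ring
    rw [s4]
    refine Finset.sum_le_sum fun i _ => pow_le_pow_left₀ hmp ?_ i
    push_cast
    nlinarith

end

end Pool.Agent.W591.PM
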